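import Mathlib

namespace Pool.Agent.MP_697cf1_co

/-- Natural upper density: limsup of |A ∩ {1,…,N}| / N. -/
noncomputable def upperDensity (A : Set ℕ) : ℝ :=
  Filter.limsup (fun N : ℕ => ((A ∩ Set.Icc 1 N).ncard : ℝ) / (N : ℝ)) Filter.atTop

/-- The unrestricted sumset mB + lB. -/
def dilatedSumset (m l : ℕ) (B : Set ℕ) : Set ℕ :=
  {x | ∃ b₁ ∈ B, ∃ b₂ ∈ B, x = m * b₁ + l * b₂}

end Pool.Agent.MP_697cf1_co
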