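import Mathlib
import Pool.Agent.MP_697cf1_co.Defs

namespace Pool.Agent.MP_697cf1_co

open Filter

/-- The removed blocks. -/
def blocks (c ρ : ℝ) : Set ℕ := {n | ∃ j : ℕ, ρ ^ j < n ∧ (n : ℝ) ≤ c * ρ ^ j}

/-- The set used as counterexample. -/
def goodSet (c ρ : ℝ) (q : ℕ) : Set ℕ := {n | n ≠ 0 ∧ ¬ (q ∣ n ∧ n ∈ blocks c ρ)}

lemma card_mult_le (q : ℕ) (hq : 0 < q) (α β : ℝ) (hα : 0 ≤ α) (hαβ : α ≤ β) :
    ∃ S : Finset ℕ, (S.card : ℝ) ≤ (β - α) / q + 1 ∧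
      ∀ n : ℕ, q ∣ n → α < n → (n : ℝ) ≤ β → n ∈ S := by
  have hq' : (0 : ℝ) < q := by exact_mod_cast hq
  refine ⟨(Finset.Ioc ⌊α / q⌋₊ ⌊β / q⌋₊).image (fun i => q * i), ?_, ?_⟩
  · have h1 : ((Finset.Ioc ⌊α / q⌋₊ ⌊β / q⌋₊).image (fun i => q * i)).card
        ≤ ⌊β / q⌋₊ - ⌊α / q⌋₊ := by
      refine Finset.card_image_le.trans ?_
      simp
    have h2 : ⌊α / q⌋₊ ≤ ⌊β / q⌋₊ := Nat.floor_le_floor (by gcongr)
    have h3 : ((⌊β / q⌋₊ - ⌊α / q⌋₊ : ℕ) : ℝ) = (⌊β / q⌋₊ : ℝ) - ⌊α / q⌋₊ := Nat.cast_sub h2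
    have h4 : (⌊β / q⌋₊ : ℝ) ≤ β / q := Nat.floor_le (div_nonneg (hα.trans hαβ) hq'.le)
    have h5 : α / q < (⌊α / q⌋₊ : ℝ) + 1 := Nat.lt_floor_add_one _
    have h6 : (((Finset.Ioc ⌊α / q⌋₊ ⌊β / q⌋₊).image (fun i => q * i)).card : ℝ)
        ≤ ((⌊β / q⌋₊ - ⌊α / q⌋₊ : ℕ) : ℝ) := by exact_mod_cast h1
    rw [h3] at h6
    rw [sub_div]
    linarith
  · rintro n ⟨i, rfl⟩ h1 h2
    refine Finset.mem_image.2 ⟨i, Finset.mem_Ioc.2 ⟨?_, ?_⟩, rfl⟩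
    · rw [Nat.floor_lt (div_nonneg hα hq'.le), div_lt_iff₀ hq']
      push_cast at h1
      linarith
    · apply Nat.le_floor
      rw [le_div_iff₀ hq']
      push_cast at h2
      linarith

lemma bad_cover (c ρ : ℝ) (hc : 1 ≤ c) (hρ : 1 < ρ) (q : ℕ) (hq : 0 < q) (J : ℕ) :
    ∃ S : Finset ℕ, (S.card : ℝ) ≤ (c - 1) * (ρ ^ J - 1) / ((ρ - 1) * q) + J ∧
      ∀ n : ℕ, q ∣ n → (∃ j < J, ρ ^ j < n ∧ (n : ℝ) ≤ c * ρ ^ j) → n ∈ S := by
  have hq' : (0 : ℝ) < q := by exact_mod_cast hq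
  induction J with
  | zero => exact ⟨∅, by simp, by simp⟩
  | succ J ih =>
    obtain ⟨S, hS1, hS2⟩ := ih
    have hpos : 0 < ρ ^ J := by positivity
    obtain ⟨T, hT1, hT2⟩ := card_mult_le q hq (ρ ^ J) (c * ρ ^ J) hpos.le (by nlinarith)
    refine ⟨S ∪ T, ?_, ?_⟩
    · have h1 : ((S ∪ T).card : ℝ) ≤ S.card + T.card := by exact_mod_cast Finset.card_union_le S T
      have h2 : (c - 1) * (ρ ^ (J + 1) - 1) / ((ρ - 1) * q)
          = (c - 1) * (ρ ^ J - 1) / ((ρ - 1) * q) + (c * ρ ^ J - ρ ^ J) / q := by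
        have : ρ - 1 ≠ 0 := by linarith
        field_simp
        ring
      rw [h2]
      push_cast
      linarith
    · rintro n hn ⟨j, hj, h1, h2⟩
      rcases Nat.lt_succ_iff_lt_or_eq.1 hj with h | rfl
      · exact Finset.mem_union_left _ (hS2 n hn ⟨j, h, h1, h2⟩)
      · exact Finset.mem_union_right _ (hT2 n hn h1 h2)

lemma count_ge (c ρ : ℝ) (hc : 1 ≤ c) (hρ : 1 < ρ) (q : ℕ) (hq : 0 < q) (J : ℕ) :
    (⌊ρ ^ J⌋₊ : ℝ) - ((c - 1) / ((ρ - 1) * q) * ⌊ρ ^ J⌋₊ + J)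
      ≤ ((goodSet c ρ q ∩ Set.Icc 1 ⌊ρ ^ J⌋₊).ncard : ℝ) := by
  have hq' : (0 : ℝ) < q := by exact_mod_cast hq
  obtain ⟨S, hS1, hS2⟩ := bad_cover c ρ hc hρ q hq J
  set N := ⌊ρ ^ J⌋₊ with hN
  have hpos : 0 < ρ ^ J := by positivity
  have hN1 : (N : ℝ) ≤ ρ ^ J := Nat.floor_le hpos.le
  have hN2 : ρ ^ J < (N : ℝ) + 1 := Nat.lt_floor_add_one _
  have hsub : ((Finset.Icc 1 N \ S : Finset ℕ) : Set ℕ) ⊆ goodSet c ρ q ∩ Set.Icc 1 N := by
    intro n hn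
    simp only [Finset.coe_sdiff, Finset.coe_Icc, Set.mem_sdiff, Finset.mem_coe] at hn
    obtain ⟨hn1, hn2⟩ := hn
    refine ⟨⟨by have := hn1.1; omega, ?_⟩, hn1⟩
    rintro ⟨h1, j, h2, h3⟩
    apply hn2
    refine hS2 n h1 ⟨j, ?_, h2, h3⟩
    have h4 : (n : ℝ) ≤ N := by exact_mod_cast hn1.2
    have h5 : ρ ^ j < ρ ^ J := by linarith
    exact (pow_lt_pow_iff_right₀ hρ).1 h5
  have hfin : (goodSet c ρ q ∩ Set.Icc 1 N).Finite := (Set.finite_Icc 1 N).inter_of_right _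
  have h1 := Set.ncard_le_ncard hsub hfin
  rw [Set.ncard_coe_finset] at h1
  have h2 : (Finset.Icc 1 N).card ≤ (Finset.Icc 1 N \ S).card + S.card :=
    Finset.card_le_card_sdiff_add_card
  rw [Nat.card_Icc] at h2
  have h3 : (N : ℝ) ≤ ((goodSet c ρ q ∩ Set.Icc 1 N).ncard : ℝ) + S.card := by
    have : N ≤ (goodSet c ρ q ∩ Set.Icc 1 N).ncard + S.card := by omega
    exact_mod_cast this
  have h4 : (c - 1) * (ρ ^ J - 1) / ((ρ - 1) * q) ≤ (c - 1) / ((ρ - 1) * q) * N := by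
    have hd : 0 < (ρ - 1) * q := mul_pos (by linarith) hq'
    rw [div_mul_eq_mul_div]
    gcongr
    linarith
  linarith

lemma density_ge (c ρ : ℝ) (hc : 1 ≤ c) (hρ : 1 < ρ) (q : ℕ) (hq : 0 < q) (θ : ℝ)
    (hθ : θ < 1 - (c - 1) / ((ρ - 1) * q)) : θ ≤ upperDensity (goodSet c ρ q) := by
  unfold upperDensity
  set δ := 1 - (c - 1) / ((ρ - 1) * q) - θ with hδ
  have hδpos : 0 < δ := by linarith
  have htend : Tendsto (fun J : ℕ => ⌊ρ ^ J⌋₊) atTop atTop :=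
    tendsto_nat_floor_atTop.comp (tendsto_pow_atTop_atTop_of_one_lt hρ)
  have hsmall : Tendsto (fun J : ℕ => (J : ℝ) ^ 1 / ρ ^ J) atTop (nhds 0) :=
    tendsto_pow_const_div_const_pow_of_one_lt 1 hρ
  have hev : ∀ᶠ J : ℕ in atTop, θ ≤
      ((goodSet c ρ q ∩ Set.Icc 1 ⌊ρ ^ J⌋₊).ncard : ℝ) / (⌊ρ ^ J⌋₊ : ℝ) := by
    have h1 : ∀ᶠ J : ℕ in atTop, (J : ℝ) ^ 1 / ρ ^ J < δ / 2 :=
      hsmall.eventually (gt_mem_nhds (by linarith))
    filter_upwards [h1] with J hJ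
    have hpos : 0 < ρ ^ J := by positivity
    have hone : 1 ≤ ρ ^ J := one_le_pow₀ hρ.le
    have hN1 : 1 ≤ ⌊ρ ^ J⌋₊ := Nat.le_floor (by simpa using hone)
    have hN1' : (1 : ℝ) ≤ ⌊ρ ^ J⌋₊ := by exact_mod_cast hN1
    have hN2 : ρ ^ J < (⌊ρ ^ J⌋₊ : ℝ) + 1 := Nat.lt_floor_add_one _
    rw [pow_one, div_lt_iff₀ hpos] at hJ
    have h2 := count_ge c ρ hc hρ q hq J
    rw [le_div_iff₀ (by linarith)]
    have h3 : (J : ℝ) ≤ δ * ⌊ρ ^ J⌋₊ := by nlinarith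
    have h4 : θ * ⌊ρ ^ J⌋₊ = ⌊ρ ^ J⌋₊ - (c - 1) / ((ρ - 1) * q) * ⌊ρ ^ J⌋₊ - δ * ⌊ρ ^ J⌋₊ := by
      rw [hδ]; ring
    linarith
  refine le_limsup_of_frequently_le ?_ ?_
  · exact htend.frequently (p := fun N : ℕ =>
      θ ≤ ((goodSet c ρ q ∩ Set.Icc 1 N).ncard : ℝ) / (N : ℝ)) hev.frequently
  · refine isBoundedUnder_of ⟨1, fun N => ?_⟩
    refine div_le_one_of_le₀ ?_ (Nat.cast_nonneg _)
    have h1 : (goodSet c ρ q ∩ Set.Icc 1 N).ncard ≤ (Set.Icc 1 N).ncard :=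
      Set.ncard_le_ncard Set.inter_subset_right (Set.finite_Icc 1 N)
    have h2 : (Set.Icc 1 N).ncard = N := by
      rw [← Finset.coe_Icc, Set.ncard_coe_finset]; simp
    rw [h2] at h1
    exact_mod_cast h1

lemma key (m l : ℕ) (hl : 1 ≤ l) (hml : l < m) (c ρ : ℝ) (hρ : 1 < ρ)
    (h1 : (m : ℝ) ≤ c * l) (h2 : (m : ℝ) + l ≤ c * m) (h3 : ρ * l < c * (m + l)) (b t : ℕ) :
    ∃ M : ℕ, ∀ x ≥ M, m * b + l * x + t ∈ blocks c ρ ∨ m * x + l * b + t ∈ blocks c ρ ∨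
      m * x + l * x + t ∈ blocks c ρ := by
  have hl' : (1 : ℝ) ≤ l := by exact_mod_cast hl
  have hml' : (l : ℝ) < m := by exact_mod_cast hml
  set η : ℝ := c * (m + l) - ρ * l with hη
  have hηpos : 0 < η := by linarith
  set D : ℝ := (m + l) * (m * b + t) with hD
  obtain ⟨M, hM⟩ := exists_nat_gt (ρ * D / η + 1)
  refine ⟨M, fun x hx => ?_⟩
  by_contra hcon
  simp only [not_or] at hcon
  obtain ⟨hu, hv, hw⟩ := hcon
  have hx' : (M : ℝ) ≤ x := by exact_mod_cast hx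
  have hb0 : (0 : ℝ) ≤ b := Nat.cast_nonneg _
  have ht0 : (0 : ℝ) ≤ t := Nat.cast_nonneg _
  have hx0 : (0 : ℝ) ≤ x := Nat.cast_nonneg _
  have hD0 : 0 ≤ D := by positivity
  have hq0 : 0 ≤ ρ * D / η := by positivity
  set w : ℝ := m * x + l * x + t with hw'
  have hwx : (x : ℝ) ≤ w := by nlinarith
  have hw1 : 1 < w := by linarith
  -- locate w
  obtain ⟨j, hj1, hj2⟩ : ∃ j : ℕ, ρ ^ j < w ∧ w ≤ ρ ^ (j + 1) := by
    have hex : ∃ n : ℕ, w ≤ ρ ^ n := by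
      obtain ⟨n, hn⟩ := pow_unbounded_of_one_lt w hρ
      exact ⟨n, hn.le⟩
    classical
    have h0 : Nat.find hex ≠ 0 := by
      intro h
      have := Nat.find_spec hex
      rw [h, pow_zero] at this
      linarith
    obtain ⟨j, hj⟩ := Nat.exists_eq_succ_of_ne_zero h0
    refine ⟨j, ?_, ?_⟩
    · have := Nat.find_min hex (m := j) (by omega)
      exact not_le.1 this
    · have := Nat.find_spec hex
      rwa [hj] at this
  have hpos : 0 < ρ ^ j := by positivity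
  simp only [blocks, Set.mem_ofPred_eq, not_exists, not_and, not_le] at hu hv hw
  have hw2 := hw j
  have hu2 := hu j
  have hv2 := hv j
  push_cast at hw2 hu2 hv2
  have hw3 : c * ρ ^ j < w := hw2 hj1
  have hbig : D ≤ η * ρ ^ j := by
    have h4 : ρ * D / η < ρ ^ (j + 1) := by linarith
    rw [div_lt_iff₀ hηpos, pow_succ] at h4
    have h5 : ρ * D < ρ * (η * ρ ^ j) := by linarith
    exact (lt_of_mul_lt_mul_left h5 (by linarith)).le
  have hu3 : (m : ℝ) * b + l * x + t ≤ c * ρ ^ j := by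
    have h4 : ((m : ℝ) + l) * (m * b + l * x + t) ≤ (m + l) * (c * ρ ^ j) := by
      have h5 : ((m : ℝ) + l) * (m * b + l * x + t) ≤ l * w + D := by
        rw [hw', hD]; nlinarith
      have h6 : l * w ≤ l * ρ ^ (j + 1) := by gcongr
      have h7 : ((m : ℝ) + l) * (c * ρ ^ j) = l * ρ ^ (j + 1) + η * ρ ^ j := by
        rw [hη]; ring
      linarith
    exact le_of_mul_le_mul_left h4 (by linarith)
  have hu4 : (m : ℝ) * b + l * x + t ≤ ρ ^ j := by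
    by_contra h; push Not at h
    linarith [hu2 h]
  have hv3 : (m : ℝ) * x + l * b + t ≤ c * ρ ^ j := by
    have h4 : (l : ℝ) * (m * x + l * b + t) ≤ l * (c * ρ ^ j) := by
      have h5 : (l : ℝ) * (m * x + l * b + t) ≤ m * (m * b + l * x + t) := by
        have : (l : ℝ) * l * b ≤ m * m * b := by gcongr
        nlinarith
      have h6 : (m : ℝ) * (m * b + l * x + t) ≤ m * ρ ^ j := by gcongr
      nlinarith
    exact le_of_mul_le_mul_left h4 (by linarith)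
  have hv4 : (m : ℝ) * x + l * b + t ≤ ρ ^ j := by
    by_contra h; push Not at h
    linarith [hv2 h]
  have hw4 : w ≤ c * ρ ^ j := by
    have h4 : (m : ℝ) * w ≤ m * (c * ρ ^ j) := by
      have h5 : (m : ℝ) * w ≤ (m + l) * (m * x + l * b + t) := by
        rw [hw']
        have : 0 ≤ ((m : ℝ) + l) * (l * b) := by positivity
        have : 0 ≤ (l : ℝ) * t := by positivity
        nlinarith
      have h6 : ((m : ℝ) + l) * (m * x + l * b + t) ≤ (m + l) * ρ ^ j := by gcongr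
      nlinarith
    exact le_of_mul_le_mul_left h4 (by linarith)
  linarith

lemma params (m l : ℕ) (hl : 1 ≤ l) (hml : l < m) :
    ∃ c ρ : ℝ, 1 ≤ c ∧ 1 < ρ ∧ (m : ℝ) ≤ c * l ∧ (m : ℝ) + l ≤ c * m ∧ ρ * l < c * (m + l) ∧
      (c - 1) / (ρ - 1) < 1 / ((m : ℝ) / l + 2) := by
  have hl' : (1 : ℝ) ≤ l := by exact_mod_cast hl
  have hml' : (l : ℝ) < m := by exact_mod_cast hml
  have hl0 : (0 : ℝ) < l := by linarith
  have hm0 : (0 : ℝ) < m := by linarith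
  set k : ℝ := m / l with hk
  have hk1 : 1 < k := by rw [hk, lt_div_iff₀ hl0]; linarith
  have hmk : (m : ℝ) = k * l := by rw [hk]; field_simp
  set c : ℝ := max k ((k + 1) / k) with hc
  have hc1 : k ≤ c := le_max_left _ _
  have hc2 : (k + 1) / k ≤ c := le_max_right _ _
  have hc3 : c < k + 1 := by
    rw [hc, max_lt_iff]
    refine ⟨by linarith, ?_⟩
    rw [div_lt_iff₀ (by linarith)]
    nlinarith
  rw [div_le_iff₀ (by linarith)] at hc2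
  refine ⟨c, (1 + (c - 1) * (k + 2) + c * (k + 1)) / 2, by linarith, by nlinarith, ?_, ?_, ?_, ?_⟩
  · rw [hmk]; gcongr
  · rw [hmk]; nlinarith
  · rw [hmk]
    have : (1 + (c - 1) * (k + 2) + c * (k + 1)) / 2 < c * (k + 1) := by nlinarith
    nlinarith
  · rw [div_lt_div_iff₀ (by nlinarith) (by linarith)]
    nlinarith

lemma residue (B : Set ℕ) (hB : B.Infinite) (q : ℕ) (hq : 0 < q) :
    ∃ b ∈ B, ∀ M : ℕ, ∃ x ∈ B, M ≤ x ∧ x % q = b % q := by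
  by_contra hcon
  push Not at hcon
  have hfin : ∀ r : ℕ, {x | x ∈ B ∧ x % q = r}.Finite := by
    intro r
    by_cases h : ∃ b ∈ B, b % q = r
    · obtain ⟨b, hb, rfl⟩ := h
      obtain ⟨M, hM⟩ := hcon b hb
      refine (Set.finite_lt_nat M).subset ?_
      rintro x ⟨hx1, hx2⟩
      by_contra h
      exact hM x hx1 (not_lt.1 h) hx2
    · push Not at h
      convert Set.finite_empty
      ext x
      simpa using h x
  apply hB
  have : B ⊆ ⋃ r ∈ Set.Iio q, {x | x ∈ B ∧ x % q = r} := by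
    intro x hx
    simp only [Set.mem_iUnion]
    exact ⟨x % q, Nat.mod_lt _ hq, hx, rfl⟩
  exact ((Set.finite_Iio q).biUnion fun r _ => hfin r).subset this

theorem q1 (m l : ℕ) (hl : 1 ≤ l) (hml : l < m) :
    ∃ A : Set ℕ, 0 ∉ A ∧
      ((m : ℝ) / l + 1) / ((m : ℝ) / l + 2) < upperDensity A ∧
      ∀ B : Set ℕ, B.Infinite → ∀ t : ℕ, ¬ ((fun x => x + t) '' dilatedSumset m l B ⊆ A) := by
  obtain ⟨c, ρ, hc, hρ, h1, h2, h3, h4⟩ := params m l hl hml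
  refine ⟨goodSet c ρ 1, by simp [goodSet], ?_, ?_⟩
  · have hk : (0 : ℝ) ≤ (m : ℝ) / l := by positivity
    have h5 : ((m : ℝ) / l + 1) / ((m : ℝ) / l + 2) < 1 - (c - 1) / ((ρ - 1) * (1 : ℕ)) := by
      have : ((m : ℝ) / l + 1) / ((m : ℝ) / l + 2) = 1 - 1 / ((m : ℝ) / l + 2) := by
        field_simp
        ring
      rw [this]
      simp only [Nat.cast_one, mul_one]
      linarith
    obtain ⟨θ, hθ1, hθ2⟩ := exists_between h5
    exact hθ1.trans_le (density_ge c ρ hc hρ 1 one_pos θ hθ2)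
  · intro B hB t hsub
    obtain ⟨b, hb, hx⟩ := residue B hB 1 one_pos
    obtain ⟨M, hM⟩ := key m l hl hml c ρ hρ h1 h2 h3 b t
    obtain ⟨x, hxB, hxM, -⟩ := hx M
    have hmem : ∀ y ∈ B, ∀ z ∈ B, m * y + l * z + t ∉ blocks c ρ := by
      intro y hy z hz hbad
      have : m * y + l * z + t ∈ goodSet c ρ 1 := hsub ⟨m * y + l * z, ⟨y, hy, z, hz, rfl⟩, rfl⟩
      exact this.2 ⟨one_dvd _, hbad⟩
    rcases hM x hxM with h | h | h
    · exact hmem b hb x hxB h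
    · exact hmem x hxB b hb h
    · exact hmem x hxB x hxB h

theorem q2 (m l : ℕ) (hl : 1 ≤ l) (hml : l < m) :
    ∃ A : Set ℕ, 0 ∉ A ∧
      1 - 1 / ((l : ℝ) * ((m : ℝ) / l + 1) * ((m : ℝ) / l + 2)) < upperDensity A ∧
      ∀ B : Set ℕ, B.Infinite → ¬ (dilatedSumset m l B ⊆ A) := by
  obtain ⟨c, ρ, hc, hρ, h1, h2, h3, h4⟩ := params m l hl hml
  have hq : 0 < m + l := by omega
  refine ⟨goodSet c ρ (m + l), by simp [goodSet], ?_, ?_⟩
  · have hk : (0 : ℝ) ≤ (m : ℝ) / l := by positivity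
    have hl0 : (0 : ℝ) < l := by exact_mod_cast hl
    have hq' : (0 : ℝ) < ((m + l : ℕ) : ℝ) := by exact_mod_cast hq
    have h5 : 1 - 1 / ((l : ℝ) * ((m : ℝ) / l + 1) * ((m : ℝ) / l + 2))
        < 1 - (c - 1) / ((ρ - 1) * ((m + l : ℕ) : ℝ)) := by
      have e1 : (l : ℝ) * ((m : ℝ) / l + 1) = ((m + l : ℕ) : ℝ) := by
        push_cast
        field_simp
      have e2 : (c - 1) / ((ρ - 1) * ((m + l : ℕ) : ℝ)) = (c - 1) / (ρ - 1) / ((m + l : ℕ) : ℝ) := by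
        rw [div_div]
      have e3 : 1 / (((m + l : ℕ) : ℝ) * ((m : ℝ) / l + 2))
          = 1 / ((m : ℝ) / l + 2) / ((m + l : ℕ) : ℝ) := by
        rw [div_div, mul_comm]
      rw [e1, e2, e3]
      have := div_lt_div_of_pos_right h4 hq'
      linarith
    obtain ⟨θ, hθ1, hθ2⟩ := exists_between h5
    exact hθ1.trans_le (density_ge c ρ hc hρ (m + l) hq θ hθ2)
  · intro B hB hsub
    obtain ⟨b, hb, hx⟩ := residue B hB (m + l) hq
    obtain ⟨M, hM⟩ := key m l hl hml c ρ hρ h1 h2 h3 b 0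
    obtain ⟨x, hxB, hxM, hxb⟩ := hx M
    have hmem : ∀ y ∈ B, ∀ z ∈ B, y % (m + l) = z % (m + l) → m * y + l * z ∉ blocks c ρ := by
      intro y hy z hz hyz hbad
      have : m * y + l * z ∈ goodSet c ρ (m + l) := hsub ⟨y, hy, z, hz, rfl⟩
      refine this.2 ⟨?_, hbad⟩
      have h5 : m * y + l * z ≡ m * z + l * z [MOD (m + l)] :=
        Nat.ModEq.add_right _ (Nat.ModEq.mul_left _ hyz)
      have h6 : m * z + l * z ≡ 0 [MOD (m + l)] := by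
        rw [← add_mul]
        exact (Nat.modEq_zero_iff_dvd).2 (Dvd.intro _ rfl)
      exact (Nat.modEq_zero_iff_dvd).1 (h5.trans h6)
    simp only [add_zero] at hM
    rcases hM x hxM with h | h | h
    · exact hmem b hb x hxB hxb.symm h
    · exact hmem x hxB b hb hxb h
    · exact hmem x hxB x hxB rfl h

end Pool.Agent.MP_697cf1_co
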